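import Pool.Agent.Y507.Coi.Stm

/-! Isoperimetric property of the product with the pentagons. -/

set_option autoImplicit false

namespace Pool.Agent.Y888.Coi

open Set MeasureTheory
open scoped Matrix
open Pool.Agent.W560.Coiso
open Pool.Agent.Y507.Coi

theorem dot_two {k : ℕ} (u : Fin 2 → ℝ) (w : Fin (k + 1) → ℝ) (z : Fin (k + 2 + 1) → ℝ) :
    two u w ⬝ᵥ z =
      u 0 * z 0 + u 1 * z 1 + w ⬝ᵥ fun i => z i.succ.succ := by
  unfold dotProduct
  rw [Fin.sum_univ_succ, Fin.sum_univ_succ]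
  have e : (1 : Fin (k + 2 + 1)) = Fin.succ 0 := rfl
  simp only [two, Fin.cons_zero, Fin.cons_succ, e]
  ring

theorem thm : S_ISOP := by
  intro k I J _ _ κ τ hiso T q β hT hβc hβ0 hqc hqd hclosed
  have hp := psi_gt
  have hp' := psi_lt
  -- the components of the velocity
  have d0 : ∀ t ∈ Ioo 0 T, HasDerivAt (fun t => q t 0)
      ((1 + psi) * β (Sum.inl 0) t + (1 + psi) * β (Sum.inl 1) t - psi * β (Sum.inl 2) t -
        2 * β (Sum.inl 3) t - psi * β (Sum.inl 4) t) t := by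
    intro t ht
    have := hasDerivAt_pi.1 (hqd t ht) 0
    refine this.congr_deriv ?_
    simp [tp, Fintype.sum_sum_type, Fin.sum_univ_succ, pt, two]
    ring
  have d1 : ∀ t ∈ Ioo 0 T, HasDerivAt (fun t => q t 1)
      (-(1 + psi) * β (Sum.inl 0) t + psi * β (Sum.inl 1) t + 2 * β (Sum.inl 2) t +
        psi * β (Sum.inl 3) t - (1 + psi) * β (Sum.inl 4) t) t := by
    intro t ht
    have := hasDerivAt_pi.1 (hqd t ht) 1
    refine this.congr_deriv ?_
    have e : (1 : Fin (k + 2 + 1)) = Fin.succ 0 := rfl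
    simp only [tp, Finset.sum_apply, Pi.smul_apply, smul_eq_mul, Fintype.sum_sum_type, Sum.elim_inl,
      Sum.elim_inr, two, e, Fin.cons_succ, Fin.cons_zero]
    simp [Fin.sum_univ_succ, pt]
    ring
  have c0 : ContinuousOn (fun t => q t 0) (Icc 0 T) := continuousOn_pi.1 hqc 0
  have c1 : ContinuousOn (fun t => q t 1) (Icc 0 T) := continuousOn_pi.1 hqc 1
  have b0 := hβc (Sum.inl 0)
  have b1 := hβc (Sum.inl 1)
  have b2 := hβc (Sum.inl 2)
  have b3 := hβc (Sum.inl 3)
  have b4 := hβc (Sum.inl 4)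
  set G1 : ℝ → ℝ := fun t => β (Sum.inl 0) t + β (Sum.inl 1) t + β (Sum.inl 2) t +
    β (Sum.inl 3) t + β (Sum.inl 4) t with hG1
  set G2 : ℝ → ℝ := fun t => ∑ j, β (Sum.inr j) t with hG2
  have hG1c : ContinuousOn G1 (Icc 0 T) := by fun_prop
  have hG2c : ContinuousOn G2 (Icc 0 T) :=
    continuousOn_finsetSum _ fun j _ => hβc (Sum.inr j)
  set L1 := ∫ t in (0 : ℝ)..T, G1 t with hL1
  set L2 := ∫ t in (0 : ℝ)..T, G2 t with hL2
  have hG1i : IntervalIntegrable G1 volume 0 T :=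
    ContinuousOn.intervalIntegrable (by rwa [uIcc_of_le hT])
  have hG2i : IntervalIntegrable G2 volume 0 T :=
    ContinuousOn.intervalIntegrable (by rwa [uIcc_of_le hT])
  have hL : ∫ t in (0 : ℝ)..T, ∑ j, β j t = L1 + L2 := by
    rw [hL1, hL2, ← intervalIntegral.integral_add hG1i hG2i]
    congr 1
    funext t
    simp [Fintype.sum_sum_type, Fin.sum_univ_succ, hG1, hG2]
    ring
  -- the planar part
  have hcurve : Curve T (fun t => q t 0) (fun t => q t 1) (fun t => ∫ r in (0 : ℝ)..t, G1 r) := by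
    refine ⟨hT, hclosed 0 ?_, hclosed 1 ?_, ?_⟩
    · intro h
      have := congrArg Fin.val h
      simp at this
    · intro h
      have := congrArg Fin.val h
      simp at this
    rintro u v ⟨i0, i1, i2, i3, i4⟩ s t hs hst ht
    have h := path_le (T := T) (F := fun t => u * q t 0 + v * q t 1)
      (F' := fun t => u * ((1 + psi) * β (Sum.inl 0) t + (1 + psi) * β (Sum.inl 1) t -
        psi * β (Sum.inl 2) t - 2 * β (Sum.inl 3) t -
        psi * β (Sum.inl 4) t) + v * (-(1 + psi) * β (Sum.inl 0) t + psi * β (Sum.inl 1) t +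
        2 * β (Sum.inl 2) t + psi * β (Sum.inl 3) t -
        (1 + psi) * β (Sum.inl 4) t)) (G := G1) (by fun_prop)
      (fun t ht => ((d0 t ht).const_mul u).add ((d1 t ht).const_mul v)) (by fun_prop) hG1c
      (fun t ht => by
        have h0 := mul_nonneg (hβ0 (Sum.inl 0) t ht) (sub_nonneg.2 i0)
        have h1 := mul_nonneg (hβ0 (Sum.inl 1) t ht) (sub_nonneg.2 i1)
        have h2 := mul_nonneg (hβ0 (Sum.inl 2) t ht) (sub_nonneg.2 i2)
        have h3 := mul_nonneg (hβ0 (Sum.inl 3) t ht) (sub_nonneg.2 i3)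
        have h4 := mul_nonneg (hβ0 (Sum.inl 4) t ht) (sub_nonneg.2 i4)
        simp only [hG1]; linarith) hs hst ht
    linarith
  have h5 : (0 : ℝ) < 1 + 2 * psi := by linarith
  obtain ⟨v, w, hvw⟩ := hcurve.cover c0 c1 (r := L1 / (1 + 2 * psi)) (by
    rw [mul_div_cancel₀ _ h5.ne']
    simp [hL1])
  -- the other coordinates
  obtain ⟨v2, hv2⟩ := hiso T (fun t i => q t i.succ.succ) (fun j => β (Sum.inr j)) hT
    (fun j => hβc _) (fun j => hβ0 _)
    (continuousOn_pi.2 fun i => continuousOn_pi.1 hqc i.succ.succ)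
    (fun t ht => hasDerivAt_pi.2 fun i => by
      have := hasDerivAt_pi.1 (hqd t ht) i.succ.succ
      refine this.congr_deriv ?_
      simp [tp, Fintype.sum_sum_type, two])
    (fun i hi => hclosed i.succ.succ fun h => hi (by
      rw [← Fin.succ_last, ← Fin.succ_last] at h
      exact Fin.succ_injective _ (Fin.succ_injective _ h)))
  refine ⟨two ![v, w] v2, fun t ht i => ?_⟩
  rw [hL, add_div]
  have hq := hv2 t ht i.2
  obtain ⟨k0, k1, k2, k3, k4⟩ := hvw t ht
  have hd := dot_two (pk i.1) (κ i.2) (q t + two ![v, w] v2)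
  have e0 : (q t + (two ![v, w] v2 : Fin (k + 2 + 1) → ℝ)) 0 = q t 0 + v := by
    simp [two]
  have e1 : (q t + (two ![v, w] v2 : Fin (k + 2 + 1) → ℝ)) 1 = q t 1 + w := by
    have e : (1 : Fin (k + 2 + 1)) = Fin.succ 0 := rfl
    rw [Pi.add_apply, e]
    simp [two]
  have e2 : (fun i : Fin (k + 1) => (q t + (two ![v, w] v2 : Fin (k + 2 + 1) → ℝ)) i.succ.succ) =
      (fun i : Fin (k + 1) => q t i.succ.succ) + v2 := by
    funext i
    simp [two]
  rw [e0, e1, e2] at hd
  refine hd.le.trans (add_le_add ?_ hq)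
  obtain ⟨a, i'⟩ := i
  fin_cases a <;> simp [pk] <;> linarith

end Pool.Agent.Y888.Coi
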